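import Pool.Agent.Results.MP_d87a8f_pr.Dihedral

set_option autoImplicit false

namespace Pool.Agent.Results.MP_bb6540_pr.Dihedral

open Filter Topology Pool.Agent.Results.MP_d87a8f_pr.Dihedral

/-- Nilpotent groups and numbers of generators in the required regime for which, whatever the
generators, the walk is far from uniform at twice the conjectured cutoff time. -/
theorem result : ∃ (G : ℕ → Type) (_ : ∀ n, Group (G n)) (_ : ∀ n, Fintype (G n))
    (_ : ∀ n, DecidableEq (G n)) (k : ℕ → ℕ),
    (∀ n, Group.IsNilpotent (G n)) ∧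
    Tendsto (fun n => Fintype.card (G n)) atTop atTop ∧
    Tendsto (fun n => Real.log (k n)) atTop atTop ∧
    Tendsto (fun n => Real.log (k n) / Real.log (Fintype.card (G n))) atTop (𝓝 0) ∧
    Tendsto (fun n => Real.log (Nat.card (Abelianization (G n))) / (k n : ℝ)) atTop (𝓝 0) ∧
    ∀ n (Z : Fin (k n) → G n), 1 / 2 ≤ d Z ((1 + 1) * tstar (G n) (k n)) := by
  refine ⟨GG, inferInstance, inferInstance, inferInstance, kk, fun n => ?_, lim1, lim2, lim3, ?_, main⟩
  · exact (IsPGroup.of_card (p := 2) (Nat.card_eq_fintype_card.trans (cG n))).isNilpotent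
  · refine squeeze_zero (fun j => by positivity) (fun j => ?_)
      (tendsto_const_div_atTop_nhds_zero_nat (4 : ℝ) |>.comp (tendsto_add_atTop_nat 1))
    refine div_le_div₀ (by norm_num) ((Real.log_le_self (by positivity)).trans
      (by exact_mod_cast ab_le _)) (by positivity) ?_
    exact_mod_cast le_trans (by dsimp; omega) (Nat.lt_two_pow_self (n := 32 * (j + 1))).le

end Pool.Agent.Results.MP_bb6540_pr.Dihedral
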